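import Pool.Agent.Helper92_LUR.Defs

/-!
# GAP: the pieces meeting a closed set are finitely many and are isolated by suprema
-/

set_option autoImplicit false
open Filter Topology Set

namespace LUR.H18

theorem gap (hosc : LUR.OSC) : LUR.GAP := by
  intro K _ _ ι Λ D s f c i hD hc hne hemp
  classical
  set H : Set K := D ∩ {z | c ≤ |f z - f s|} with hH
  have hcont : Continuous fun z => |f z - f s| := by fun_prop
  have hHc : IsClosed H := hD.inter (isClosed_le continuous_const hcont)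
  have hopen : ∀ N, IsOpen ((Λ.F i \ Λ.V i N)ᶜ) := by
    intro N
    have h1 := Λ.closedDiff i {N}
    simp only [mem_singleton_iff, iUnion_iUnion_eq_left] at h1
    exact h1.isOpen_compl
  have hcomp : IsCompact (H ∩ Λ.F i) := (hHc.inter (Λ.closedF i)).isCompact
  have hsub : ∀ x ∈ H ∩ Λ.F i, ∃ N, x ∈ Λ.V i N := by
    intro x hx
    by_contra hcon
    have : x ∈ H ∩ (Λ.F i \ ⋃ N, Λ.V i N) := by
      refine ⟨hx.1, hx.2, ?_⟩
      simp only [mem_iUnion]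
      exact hcon
    rw [hemp] at this
    exact this
  obtain ⟨t, ht⟩ := hcomp.elim_finite_subcover (fun N => (Λ.F i \ Λ.V i N)ᶜ) hopen (by
    intro x hx
    obtain ⟨N, hN⟩ := hsub x hx
    exact mem_iUnion.2 ⟨N, fun h => h.2 hN⟩)
  set T : Finset ι := t.filter (fun N => (Λ.V i N ∩ H).Nonempty) with hT
  have hTcov : H ∩ Λ.F i ⊆ ⋃ N ∈ T, Λ.V i N := by
    intro x hx
    have h1 := ht hx
    simp only [mem_iUnion] at h1
    obtain ⟨N, hNt, hxN⟩ := h1
    have hxV : x ∈ Λ.V i N := by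
      by_contra hcon
      exact hxN ⟨hx.2, hcon⟩
    simp only [mem_iUnion]
    exact ⟨N, Finset.mem_filter.2 ⟨hNt, ⟨x, hxV, hx.1⟩⟩, hxV⟩
  -- the far part
  have hE : IsClosed (D ∩ (Λ.F i \ ⋃ N ∈ (T : Set ι), Λ.V i N)) :=
    hD.inter (Λ.closedDiff i _)
  have hElt : ∀ x ∈ D ∩ (Λ.F i \ ⋃ N ∈ (T : Set ι), Λ.V i N), |f x - f s| < c := by
    intro x hx
    by_contra hcon
    have h1 : x ∈ H ∩ Λ.F i := ⟨⟨hx.1, not_lt.1 hcon⟩, hx.2.1⟩
    exact hx.2.2 (hTcov h1)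
  obtain ⟨c', hc'0, hc'c, hc'⟩ : ∃ c' : ℝ, 0 ≤ c' ∧ c' < c ∧
      ∀ x ∈ D ∩ (Λ.F i \ ⋃ N ∈ (T : Set ι), Λ.V i N), |f x - f s| ≤ c' := by
    rcases (D ∩ (Λ.F i \ ⋃ N ∈ (T : Set ι), Λ.V i N)).eq_empty_or_nonempty with he | hn
    · refine ⟨0, le_rfl, hc, ?_⟩
      intro x hx
      rw [he] at hx
      exact hx.elim
    · obtain ⟨x, hx, hmax⟩ := hE.isCompact.exists_isMaxOn hn hcont.continuousOn
      exact ⟨|f x - f s|, abs_nonneg _, hElt x hx, fun y hy => hmax hy⟩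
  -- oscillations
  have hbig : ∀ N ∈ T, c ≤ LUR.osc (D ∩ Λ.V i N) s f := by
    intro N hN
    obtain ⟨z, hzV, hzH⟩ := (Finset.mem_filter.1 hN).2
    exact le_trans hzH.2 ((hosc K (D ∩ Λ.V i N) s).2.2.1 f z ⟨hzH.1, hzV⟩)
  have hsmall : ∀ N, N ∉ T → LUR.osc (D ∩ Λ.V i N) s f ≤ c' := by
    intro N hN
    refine (hosc K (D ∩ Λ.V i N) s).2.2.2 f c' hc'0 ?_
    intro z hz
    refine hc' z ⟨hz.1, Λ.subF i N hz.2, ?_⟩
    simp only [mem_iUnion, not_exists]
    intro M hM hzM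
    have hne' : N ≠ M := by
      rintro rfl
      exact hN hM
    exact (Set.disjoint_left.1 (Λ.disj i N M hne')) hz.2 hzM
  have hTne : T.Nonempty := by
    obtain ⟨x, hx⟩ := hne
    have h1 := hTcov hx
    simp only [mem_iUnion] at h1
    obtain ⟨N, hN, _⟩ := h1
    exact ⟨N, hN⟩
  refine ⟨T, c - c', by linarith, ?_, hTcov, ?_, ?_⟩
  · intro N hN
    exact (Finset.mem_filter.1 hN).2
  · obtain ⟨N0, hN0⟩ := hTne
    have h1 : LUR.osc (D ∩ Λ.V i N0) s f ≤ ∑ N ∈ T, LUR.osc (D ∩ Λ.V i N) s f :=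
      Finset.single_le_sum (f := fun N => LUR.osc (D ∩ Λ.V i N) s f)
        (fun N _ => (hosc K (D ∩ Λ.V i N) s).1.nonneg f) hN0
    have h2 := hbig N0 hN0
    linarith
  · intro T' hcard hT'
    have e1 : ∑ N ∈ T', LUR.osc (D ∩ Λ.V i N) s f
        = ∑ N ∈ T' ∩ T, LUR.osc (D ∩ Λ.V i N) s f
          + ∑ N ∈ T' \ T, LUR.osc (D ∩ Λ.V i N) s f := by
      rw [Finset.sum_inter_add_sum_sdiff]
    have e2 : ∑ N ∈ T, LUR.osc (D ∩ Λ.V i N) s f
        = ∑ N ∈ T ∩ T', LUR.osc (D ∩ Λ.V i N) s f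
          + ∑ N ∈ T \ T', LUR.osc (D ∩ Λ.V i N) s f := by
      rw [Finset.sum_inter_add_sum_sdiff]
    have b1 : ∑ N ∈ T' \ T, LUR.osc (D ∩ Λ.V i N) s f ≤ ((T' \ T).card : ℝ) * c' := by
      have := Finset.sum_le_card_nsmul (T' \ T) (fun N => LUR.osc (D ∩ Λ.V i N) s f) c'
        (fun N hN => hsmall N (Finset.mem_sdiff.1 hN).2)
      simpa [nsmul_eq_mul] using this
    have b2 : ((T \ T').card : ℝ) * c ≤ ∑ N ∈ T \ T', LUR.osc (D ∩ Λ.V i N) s f := by
      have := Finset.card_nsmul_le_sum (T \ T') (fun N => LUR.osc (D ∩ Λ.V i N) s f) c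
        (fun N hN => hbig N (Finset.mem_sdiff.1 hN).1)
      simpa [nsmul_eq_mul] using this
    have hcd : (T' \ T).card = (T \ T').card := by
      have h1 := Finset.card_sdiff_add_card_inter T' T
      have h2 := Finset.card_sdiff_add_card_inter T T'
      rw [Finset.inter_comm T T'] at h2
      omega
    have hpos : 1 ≤ (T \ T').card := by
      rw [Nat.one_le_iff_ne_zero, Ne, Finset.card_eq_zero, Finset.sdiff_eq_empty_iff_subset]
      intro hss
      exact hT' (Finset.eq_of_subset_of_card_le hss hcard.le).symm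
    have hpos' : (1 : ℝ) ≤ ((T \ T').card : ℝ) := by exact_mod_cast hpos
    rw [e1, e2, Finset.inter_comm T T']
    rw [hcd] at b1
    nlinarith

end LUR.H18
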