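import Pool.Agent.Helper92_LUR.Defs

/-!
# LEVEL: level data of level `n` from a descriptive family
-/

set_option autoImplicit false
open Filter Topology Set

namespace LUR.H18

theorem level (hclo : LUR.CLO) (helig : LUR.ELIG) : LUR.LEVEL := by
  intro K _ _ _ Fam hD r hr n
  classical
  -- the basic open sets
  have hopen : ∀ x : K, IsOpen {z : K | ∀ l < n, r l z ≤ r l x} := by
    intro x
    have h1 : {z : K | ∀ l < n, r l z ≤ r l x}
        = ⋂ l ∈ Finset.range n, {z : K | Order.succ (r l x) ≤ r l z}ᶜ := by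
      ext z
      simp
    rw [h1]
    exact isOpen_biInter_finset fun l _ => (hr l _).isOpen_compl
  -- the top part of a set
  set Q : Set K → Set K := fun N => {y | y ∈ N ∧ ∀ l < n, ∀ z ∈ closure N, r l z ≤ r l y} with hQ
  have hO : ∀ N : Set K, ∃ O : Set K, IsOpen O ∧ ∀ y0 ∈ Q N, closure N ⊆ O ∧
      ∀ z ∈ closure O, ∀ l < n, r l z ≤ r l y0 := by
    intro N
    by_cases hne : (Q N).Nonempty
    · obtain ⟨y1, hy1⟩ := hne
      have hsub : closure N ⊆ {z : K | ∀ l < n, r l z ≤ r l y1} :=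
        fun z hz l hl => hy1.2 l hl z hz
      obtain ⟨O, hO1, hO2, hO3⟩ := normal_exists_closure_subset isClosed_closure (hopen y1) hsub
      refine ⟨O, hO1, ?_⟩
      intro y0 hy0
      refine ⟨hO2, ?_⟩
      intro z hz l hl
      exact (hO3 hz l hl).trans (hy0.2 l hl y1 (subset_closure hy1.1))
    · refine ⟨∅, isOpen_empty, ?_⟩
      intro y0 hy0
      exact (hne ⟨y0, hy0⟩).elim
  choose O hOo hOQ using hO
  -- the pieces
  set P : ℕ → Set K → Set K := fun j N => {y | N ∈ Fam j ∧ y ∈ Q N} with hP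
  have hiso : ∀ j N, ∀ x ∈ P j N, ∃ U : Set K, IsOpen U ∧ x ∈ U ∧
      ∀ M, M ≠ N → Disjoint U (P j M) := by
    intro j N x hx
    obtain ⟨U, hU1, hU2, hU3⟩ := hD.1 j N hx.1 x hx.2.1
    refine ⟨U, hU1, hU2, ?_⟩
    intro M hM
    rw [Set.disjoint_left]
    intro z hzU hzP
    exact (Set.disjoint_left.1 (hU3 M hzP.1 hM)) hzU hzP.2.1
  have hclo' := fun j => hclo K (Set K) (P j) (hiso j)
  choose F W hF hPW hWF hWcl hWd hWc using hclo'
  -- facts on points of the closure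
  have hkey : ∀ j N, ∀ y ∈ W j N, ∃ y0 ∈ Q N, ∀ l < n, r l y0 ≤ r l y := by
    intro j N y hy
    have hy1 := hWcl j N hy
    have hne : (P j N).Nonempty := by
      rw [← closure_nonempty_iff]
      exact ⟨y, hy1⟩
    obtain ⟨y0, hy0⟩ := hne
    refine ⟨y0, hy0.2, ?_⟩
    intro l hl
    have hc : IsClosed {z : K | r l y0 ≤ r l z} := hr l _
    have hss : P j N ⊆ {z : K | r l y0 ≤ r l z} := fun z hz =>
      hz.2.2 l hl y0 (subset_closure hy0.2.1)
    exact (closure_minimal hss hc) hy1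
  have hWO : ∀ j N, W j N ⊆ O N := by
    intro j N y hy
    obtain ⟨y0, hy0, _⟩ := hkey j N y hy
    have h1 := (hOQ N y0 hy0).1
    refine h1 ?_
    exact closure_mono (fun z hz => hz.2.1) (hWcl j N hy)
  have hcov : ∀ x : K, ∃ j N, x ∈ W j N := by
    intro x
    have hx : x ∈ {z : K | ∀ l < n, r l z ≤ r l x} := fun l _ => le_rfl
    obtain ⟨V, hV1, hV2, hV3⟩ := normal_exists_closure_subset (isClosed_singleton (x := x))
      (hopen x) (by simp)
    obtain ⟨j, N, hN, hxN, hNV⟩ := hD.2 x V hV1 (hV2 rfl)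
    refine ⟨j, N, hPW j N ⟨hN, hxN, ?_⟩⟩
    intro l hl z hz
    exact hV3 (closure_mono hNV hz) l hl
  obtain ⟨Λ, hΛO, hΛ⟩ := helig K (Set K) F W O hF hWF hWd hWc hOo hWO hcov
  refine ⟨Λ, ?_⟩
  intro i N y hy z hz l hl
  obtain ⟨j, hj⟩ := hΛ i N y hy
  obtain ⟨y0, hy0, hy0r⟩ := hkey j N y hj
  rw [hΛO] at hz
  exact ((hOQ N y0 hy0).2 z hz l hl).trans (hy0r l hl)

end LUR.H18
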